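import Pool.Agent.SGB.Stmts

/-!
# Squad SGB, row MNB (helper9): bad pairs carry little mass (MP_589914_co)
-/

set_option autoImplicit false

open Finset

namespace Pool.Agent.SGB.H9

universe u

theorem cd_pos {H : Type u} [AddCommGroup H] [Finite H] (A : AddSubgroup H) : 0 < cd A := by
  unfold cd
  exact_mod_cast Nat.card_pos

theorem nn_pos (H : Type u) [AddCommGroup H] [Finite H] : 0 < nn H := by
  unfold nn
  exact_mod_cast Nat.card_pos

/-- MNB -/
theorem mnb (hPIN : PINStmt.{u}) : MNBStmt.{u} := by
  intro H _ _ ι _ S T B hST hB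
  classical
  have hN : 0 < nn H := nn_pos H
  rw [Finset.mul_sum]
  refine Finset.sum_le_sum fun k _ => ?_
  rw [Finset.mul_sum]
  refine Finset.sum_le_sum fun l _ => ?_
  obtain ⟨h1, -, -, -, -, -, -, h8, -, -⟩ := hPIN H ι S T hST k l
  have hk : 0 < kk S T k l := by linarith
  have hs : 0 < Real.sqrt (nn H * B) := Real.sqrt_pos.2 (by positivity)
  have hr : 0 ≤ 1 / Real.sqrt (nn H * B) * (nn H / kk S T k l) := by positivity
  split_ifs with h
  · have h2 : pp S k l ^ 2 ≤ 1 / kk S T k l := by
      have a1 := cd_pos (S k)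
      have a2 := cd_pos (S l)
      have e : pp S k l ^ 2 = cd (S k ⊓ S l) ^ 2 / (cd (S k) * cd (S l)) := by
        unfold pp uu
        rw [mul_pow, mul_pow, div_pow, div_pow, Real.sq_sqrt a1.le, Real.sq_sqrt a2.le, one_pow]
        field_simp
      rw [e, div_le_div_iff₀ (by positivity) hk, one_mul]
      exact h1
    have h3 : 1 / kk S T k l ≤ (1 / Real.sqrt (nn H * B) * (nn H / kk S T k l)) ^ 2 := by
      rw [mul_pow, div_pow, Real.sq_sqrt (by positivity), one_pow, div_pow, div_mul_div_comm,
        one_mul, div_le_div_iff₀ hk (by positivity), one_mul]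
      have h4 : nn H * kk S T k l * (B * kk S T k l) ≤ nn H * kk S T k l * nn H :=
        mul_le_mul_of_nonneg_left h.le (by positivity)
      nlinarith
    exact (le_abs_self _).trans (abs_le_of_sq_le_sq (h2.trans h3) hr)
  · exact hr

end Pool.Agent.SGB.H9
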